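import Pool.Agent.TH267.S3.Basic

set_option autoImplicit false

namespace Pool.Agent.Results.MP_2ac10d_nt.ForcedDivisors

open TH267.S3

theorem result :
    (∀ n m a : ℕ, InS n → m ∣ n → 2 ^ a ≡ 3 [MOD m] →
      Nat.gcd a (orderOf (2 : ZMod m)) ∣ n ∧ Nat.gcd m (orderOf (2 : ZMod m)) ∣ a ∧
      (24 ∣ orderOf (2 : ZMod m) → a % 24 = 1 ∨ a % 24 = 5 ∨ a % 24 = 19 ∨ a % 24 = 23)) ∧
    (∀ p q a : ℕ, p.Prime → InP q → 2 ^ a ≡ 3 [MOD p] → q ∣ a →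
      q ∣ orderOf (2 : ZMod p) → InP p) :=
  ⟨fun _ _ _ h hm ha => ⟨forced_gcd h hm ha, forced_compat h hm ha, second h hm ha⟩,
    fun _ _ _ hp hq ha h1 h2 => descent hp hq ha h1 h2⟩

end Pool.Agent.Results.MP_2ac10d_nt.ForcedDivisors
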