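import Pool.Agent.TH267.S3.Basic

set_option autoImplicit false

namespace Pool.Agent.Results.MP_2ac10d_nt.ResidueClasses

open TH267.S3

theorem result :
    (∀ n m : ℕ, InS n → m ∣ n → m % 24 = 1 ∨ m % 24 = 5 ∨ m % 24 = 19 ∨ m % 24 = 23) ∧
    (∀ p : ℕ, p.Prime → (p % 24 = 7 ∨ p % 24 = 11 ∨ p % 24 = 13 ∨ p % 24 = 17) → InP p) ∧
    {p : ℕ | InP p ∧ (p % 24 = 11 ∨ p % 24 = 13) ∧ ∃ a : ℕ, 2 ^ a ≡ 3 [MOD p]}.Infinite :=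
  ⟨fun _ _ h hm => mod24 h hm, fun _ hp h => classes hp h, infinite_family⟩

end Pool.Agent.Results.MP_2ac10d_nt.ResidueClasses
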